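import Pool.Agent.H474R2.PG.Final

set_option autoImplicit false

/-!
# The error term of the asymptotic formula for the number of primes `n ^ 2 - 2`

From the long strings of composite values of an irreducible polynomial
(`Pool.Agent.H474R2.PG.composite_strings` of the starting library). In every interval `[x, x + Y]` there is a
window of length `≫ log Y log log Y` such that for EVERY set `S` of integers and every regular comparison function
`G` the number of the primes `n ^ 2 - 2` with `n ∈ S`, `n ≤ N`, differs from `G(N)` by `≫ log log Y` for at least half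
of the integers `N` of the window.
-/

namespace Pool.Agent.U912.Sq2

open Polynomial Finset MeasureTheory

/-- the polynomial `x ^ 2 - 2` -/
noncomputable def Q : ℤ[X] := X ^ 2 - 2

lemma Q_eval (x : ℤ) : Q.eval x = x ^ 2 - 2 := by simp [Q]

lemma Q_eq : Q = C 1 * X ^ 2 + C 0 * X + C (-2 : ℤ) := by
  have h : (C (-2 : ℤ) : ℤ[X]) = -2 := by
    rw [map_neg, map_ofNat]
  simp only [Q, map_one, one_mul, map_zero, zero_mul, add_zero, sub_eq_add_neg, h]

lemma Q_deg : Q.natDegree = 2 := by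
  rw [Q_eq]
  exact natDegree_quadratic one_ne_zero

lemma Q_monic : Q.Monic := by
  rw [Monic, Q_eq]
  exact leadingCoeff_quadratic one_ne_zero

lemma Q_irr : Irreducible Q := by
  rw [Q_monic.irreducible_iff_roots_eq_zero_of_degree_le_three (by rw [Q_deg])
    (by rw [Q_deg]; norm_num)]
  rw [Multiset.eq_zero_iff_forall_notMem]
  intro a ha
  have h := (mem_roots'.1 ha).2
  rw [IsRoot, Q_eval] at h
  have h1 : a ≤ 1 := by nlinarith
  have h2 : -1 ≤ a := by nlinarith
  interval_cases a <;> omega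

/-- long intervals without primes `n ^ 2 - 2` -/
theorem gap : ∃ c : ℝ, 0 < c ∧ ∃ Y₀ : ℝ, ∀ Y : ℝ, Y₀ ≤ Y → ∀ M : ℕ, Y ≤ M →
    ∃ x : ℕ, M < x ∧ (x : ℝ) + c * Real.log Y * Real.log (Real.log Y) ≤ M + Y ∧
      ∀ k : ℕ, (k : ℝ) ≤ c * Real.log Y * Real.log (Real.log Y) → ¬ ((x + k) ^ 2 - 2).Prime := by
  obtain ⟨c, hc, Y₀, h⟩ := Pool.Agent.H474R2.PG.composite_strings Q Q_irr (by rw [Q_deg]; norm_num)
    (by rw [Q_monic.leadingCoeff]; norm_num)
  refine ⟨c, hc, max Y₀ 3, fun Y hY M hM => ?_⟩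
  obtain ⟨x, hx, hx2, hk⟩ := h Y ((le_max_left _ _).trans hY) M (by exact_mod_cast hM)
  have hM3 : (3 : ℝ) ≤ M := (le_max_right _ _).trans (hY.trans hM)
  have hM3' : 3 ≤ M := by exact_mod_cast hM3
  lift x to ℕ using (by have := Int.natCast_nonneg M; omega)
  have hx' : M < x := by exact_mod_cast hx
  refine ⟨x, hx', by exact_mod_cast hx2, fun k hk2 hp => ?_⟩
  obtain ⟨p, hp1, -, hp3, hp4⟩ := hk k hk2
  rw [Q_eval] at hp3 hp4
  have h9 : 2 ≤ (x + k) ^ 2 := by nlinarith
  have e : ((x : ℤ) + (k : ℤ)) ^ 2 - 2 = (((x + k) ^ 2 - 2 : ℕ) : ℤ) := by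
    rw [Nat.cast_sub h9]
    push_cast; ring
  rw [e] at hp3 hp4
  have h1 : p ∣ (x + k) ^ 2 - 2 := by exact_mod_cast hp3
  have h2 : p < (x + k) ^ 2 - 2 := by exact_mod_cast hp4
  rcases (Nat.dvd_prime hp).1 h1 with h3 | h3
  · exact hp1.one_lt.ne' h3
  · omega

open Classical in
/-- the number of the `n ∈ S` with `2 ≤ n ≤ N` and `n ^ 2 - 2` prime -/
noncomputable def P (S : Set ℕ) (N : ℕ) : ℕ :=
  ((Icc 2 N).filter (fun n : ℕ => n ∈ S ∧ (n ^ 2 - 2).Prime)).card

lemma P_eq_of_gap (S : Set ℕ) {a b : ℕ} (hab : a ≤ b)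
    (h : ∀ n, a < n → n ≤ b → ¬ (n ^ 2 - 2).Prime) : P S b = P S a := by
  unfold P
  congr 1
  ext n
  simp only [mem_filter, mem_Icc]
  constructor
  · rintro ⟨h1, h3⟩
    refine ⟨⟨h1.1, ?_⟩, h3⟩
    by_contra h4
    exact h n (by omega) (by omega) h3.2
  · rintro ⟨h1, h3⟩
    exact ⟨by omega, h3⟩

/-- increments of a comparison function -/
lemma incr {κ : ℝ} (hκ : 0 ≤ κ) {G : ℕ → ℝ}
    (hG : ∀ n : ℕ, 2 ≤ n → κ / Real.log (n + 1) ≤ G (n + 1) - G n)
    {a : ℕ} (ha : 2 ≤ a) (k : ℕ) :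
    κ * (k / Real.log ((a + k : ℕ) : ℝ)) ≤ G (a + k) - G a := by
  induction k with
  | zero => simp
  | succ k ih =>
    have h1 := hG (a + k) (by omega)
    have hl0 : 0 < Real.log ((a + k : ℕ) : ℝ) := Real.log_pos (by
      have : (2 : ℝ) ≤ ((a + k : ℕ) : ℝ) := by exact_mod_cast (show 2 ≤ a + k by omega)
      linarith)
    have hl : Real.log ((a + k : ℕ) : ℝ) ≤ Real.log ((a + (k + 1) : ℕ) : ℝ) := by
      apply Real.log_le_log
      · have : (0 : ℕ) < a + k := by omega
        exact_mod_cast this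
      · exact_mod_cast (show a + k ≤ a + (k + 1) by omega)
    have e1 : (((a + k : ℕ) : ℝ) + 1) = ((a + (k + 1) : ℕ) : ℝ) := by push_cast; ring
    rw [e1] at h1
    have e2 : a + k + 1 = a + (k + 1) := by ring
    rw [e2] at h1
    have h2 : κ * (((k + 1 : ℕ) : ℝ) / Real.log ((a + (k + 1) : ℕ) : ℝ)) =
        κ * (k / Real.log ((a + (k + 1) : ℕ) : ℝ)) + κ / Real.log ((a + (k + 1) : ℕ) : ℝ) := by
      push_cast
      ring
    have h3 : κ * ((k : ℝ) / Real.log ((a + (k + 1) : ℕ) : ℝ)) ≤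
        κ * (k / Real.log ((a + k : ℕ) : ℝ)) := by
      apply mul_le_mul_of_nonneg_left _ hκ
      exact div_le_div_of_nonneg_left (Nat.cast_nonneg k) hl0 hl
    rw [h2]
    linarith

open Classical in
/-- **The window theorem.** -/
theorem window : ∃ c : ℝ, 0 < c ∧ ∃ Y₀ : ℝ, ∀ (Y : ℝ) (x : ℕ), Y₀ ≤ Y → Y ≤ x →
    ∃ a b : ℕ, x ≤ a ∧ (b : ℝ) ≤ x + Y ∧ (a : ℝ) + c * Real.log Y * Real.log (Real.log Y) ≤ b ∧
      ∀ (S : Set ℕ) (κ : ℝ) (G : ℕ → ℝ), 0 ≤ κ →
        (∀ n : ℕ, 2 ≤ n → κ / Real.log (n + 1) ≤ G (n + 1) - G n) →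
        ((b : ℝ) - a) / 2 ≤ (((Ioc a b).filter (fun N : ℕ =>
          c * κ * (Real.log Y / Real.log x) * Real.log (Real.log Y) ≤
            |(P S N : ℝ) - G N|)).card : ℝ) := by
  obtain ⟨c, hc, Y₀, h⟩ := gap
  have t1 : Filter.Tendsto (fun Y : ℝ => Real.log Y * Real.log (Real.log Y)) Filter.atTop Filter.atTop :=
    Real.tendsto_log_atTop.atTop_mul_atTop₀ (Real.tendsto_log_atTop.comp Real.tendsto_log_atTop)
  obtain ⟨Y₁, hY₁⟩ := Filter.eventually_atTop.1 (t1.eventually_ge_atTop (8 / c))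
  refine ⟨c / 32, by positivity, max (max Y₀ 3) Y₁, fun Y x hY hYx => ?_⟩
  have hY3 : (3 : ℝ) ≤ Y := ((le_max_right _ _).trans (le_max_left _ _)).trans hY
  have hYY1 : Y₁ ≤ Y := (le_max_right _ _).trans hY
  obtain ⟨y, hy1, hy2, hy3⟩ := h Y (((le_max_left _ _).trans (le_max_left _ _)).trans hY) x hYx
  have hlogY : 1 < Real.log Y := by
    rw [Real.lt_log_iff_exp_lt (by linarith)]
    linarith [Real.exp_one_lt_d9]
  have hllY : 0 < Real.log (Real.log Y) := Real.log_pos hlogY
  set H : ℝ := c * Real.log Y * Real.log (Real.log Y) with hH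
  have hH0 : 0 < H := by positivity
  have hH8 : 8 ≤ H := by
    have h1 := hY₁ Y hYY1
    rw [div_le_iff₀ hc] at h1
    rw [hH]; nlinarith
  have hx3 : (3 : ℝ) ≤ x := hY3.trans hYx
  have hx3' : 3 ≤ x := by exact_mod_cast hx3
  set K : ℕ := ⌊H⌋₊ with hK
  have hK1 : (K : ℝ) ≤ H := Nat.floor_le hH0.le
  have hK2 : H < K + 1 := Nat.lt_floor_add_one H
  obtain ⟨a, rfl⟩ : ∃ a, y = a + 1 := ⟨y - 1, by omega⟩
  have hax : x ≤ a := by omega
  have hyb : ((a + (K + 1) : ℕ) : ℝ) ≤ x + Y := by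
    push_cast at hy2 ⊢; linarith
  have hb1 : ((a + (K + 1) : ℕ) : ℝ) ≤ 2 * x := by linarith
  have hlx : 0 < Real.log x := Real.log_pos (by linarith)
  have hb2 : ((a + (K + 1) : ℕ) : ℝ) ≤ (x : ℝ) ^ 2 := by nlinarith
  refine ⟨a, a + (K + 1), hax, hyb, by push_cast; nlinarith, fun S κ G hκ hG => ?_⟩
  -- the count is constant in the window
  have hconst : ∀ N ∈ Ioc a (a + (K + 1)), P S N = P S a := by
    intro N hN
    rw [mem_Ioc] at hN
    apply P_eq_of_gap S (by omega)
    intro n hn1 hn2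
    have h1 : n = a + 1 + (n - (a + 1)) := by omega
    rw [h1]
    apply hy3
    have h2 : n - (a + 1) ≤ K := by omega
    have h3 : ((n - (a + 1) : ℕ) : ℝ) ≤ K := by exact_mod_cast h2
    linarith
  set T : ℝ := c / 32 * κ * (Real.log Y / Real.log x) * Real.log (Real.log Y) with hT
  have hTH : T = κ * (H / (32 * Real.log x)) := by
    rw [hT, hH]; field_simp
  rcases hκ.eq_or_lt with h0 | hκ0
  · -- `κ = 0`
    have hT0 : T = 0 := by rw [hTH, ← h0]; ring
    have : (Ioc a (a + (K + 1))).filter (fun N : ℕ => T ≤ |(P S N : ℝ) - G N|) =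
        Ioc a (a + (K + 1)) := by
      apply filter_true_of_mem
      intro N _
      rw [hT0]; positivity
    rw [this, Nat.card_Ioc]
    have e1 : a + (K + 1) - a = K + 1 := by omega
    rw [e1]
    push_cast
    have : (0 : ℝ) ≤ K := Nat.cast_nonneg K
    linarith
  -- the bad set
  set B := (Ioc a (a + (K + 1))).filter (fun N : ℕ => ¬ T ≤ |(P S N : ℝ) - G N|) with hB
  have hsum := card_filter_add_card_filter_not (s := Ioc a (a + (K + 1)))
    (fun N : ℕ => T ≤ |(P S N : ℝ) - G N|)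
  rw [Nat.card_Ioc] at hsum
  have hBcard : (B.card : ℝ) ≤ H / 8 + 1 := by
    rcases B.eq_empty_or_nonempty with hBe | hBn
    · rw [hBe]; simp; positivity
    · set m := B.min' hBn with hm
      set M := B.max' hBn with hM
      have hmB : m ∈ B := B.min'_mem hBn
      have hMB : M ∈ B := B.max'_mem hBn
      have hmM : m ≤ M := B.min'_le _ hMB
      have hsub : B ⊆ Icc m M := by
        intro z hz
        exact mem_Icc.2 ⟨B.min'_le z hz, B.le_max' z hz⟩
      have hc1 : B.card ≤ M + 1 - m := by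
        have := card_le_card hsub
        rwa [Nat.card_Icc] at this
      have hm2 := mem_filter.1 hmB
      have hM2 := mem_filter.1 hMB
      have hPm := hconst m hm2.1
      have hPM := hconst M hM2.1
      have hm3 := hm2.2
      have hM3 := hM2.2
      push Not at hm3 hM3
      rw [hPm] at hm3
      rw [hPM] at hM3
      have hmI := mem_Ioc.1 hm2.1
      have hMI := mem_Ioc.1 hM2.1
      obtain ⟨k, hk⟩ : ∃ k, M = m + k := ⟨M - m, by omega⟩
      have h1 := incr hκ hG (a := m) (by omega) k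
      rw [← hk] at h1
      have hG2 : G M - G m < 2 * T := by
        have h2 := neg_abs_le ((P S a : ℝ) - G M)
        have h3 := le_abs_self ((P S a : ℝ) - G m)
        linarith
      have hMr : (M : ℝ) ≤ (x : ℝ) ^ 2 := by
        have : (M : ℝ) ≤ ((a + (K + 1) : ℕ) : ℝ) := by exact_mod_cast hMI.2
        linarith
      have hM1 : (1 : ℝ) < M := by
        exact_mod_cast (show 1 < M by omega)
      have hlogM : Real.log M ≤ 2 * Real.log x := by
        have h1 := Real.log_le_log (by linarith) hMr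
        rw [Real.log_pow] at h1
        exact_mod_cast h1
      have hlogM0 : 0 < Real.log M := Real.log_pos hM1
      have h4 : κ * (k / (2 * Real.log x)) ≤ κ * (k / Real.log M) := by
        apply mul_le_mul_of_nonneg_left _ hκ
        exact div_le_div_of_nonneg_left (Nat.cast_nonneg k) hlogM0 hlogM
      have h5 : κ * (k / (2 * Real.log x)) < κ * (2 * (H / (32 * Real.log x))) := by
        have : 2 * T = κ * (2 * (H / (32 * Real.log x))) := by rw [hTH]; ring
        rw [← this]
        linarith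
      have h6 := lt_of_mul_lt_mul_left h5 hκ
      have h7 : (k : ℝ) < H / 8 := by
        have e1 : 2 * (H / (32 * Real.log x)) = (H / 8) / (2 * Real.log x) := by
          field_simp; norm_num
        rw [e1] at h6
        exact (div_lt_div_iff_of_pos_right (by positivity)).1 h6
      have hc2 : B.card ≤ k + 1 := by omega
      have hc3 : (B.card : ℝ) ≤ k + 1 := by exact_mod_cast hc2
      linarith
  have e1 : a + (K + 1) - a = K + 1 := by omega
  rw [e1] at hsum
  have hsum' : (((Ioc a (a + (K + 1))).filter (fun N : ℕ => T ≤ |(P S N : ℝ) - G N|)).card : ℝ) +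
      (B.card : ℝ) = K + 1 := by
    rw [hB]; exact_mod_cast hsum
  push_cast
  have hKK : (0 : ℝ) ≤ K := Nat.cast_nonneg K
  linarith

/-- the comparison function of the problem -/
lemma li_incr (C : ℝ) (hC : 0 ≤ C) (n : ℕ) (hn : 2 ≤ n) :
    C / Real.log (n + 1) ≤ C * (∫ t in (2 : ℝ)..((n + 1 : ℕ) : ℝ), 1 / Real.log t) -
      C * ∫ t in (2 : ℝ)..(n : ℝ), 1 / Real.log t := by
  have hn' : (2 : ℝ) ≤ n := by exact_mod_cast hn
  have hint : ∀ a b : ℝ, 2 ≤ a → 2 ≤ b →
      IntervalIntegrable (fun t : ℝ => 1 / Real.log t) volume a b := by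
    intro a b ha hb
    apply ContinuousOn.intervalIntegrable
    intro t ht
    have ht2 : 2 ≤ t := by
      rcases le_total a b with h | h
      · rw [Set.uIcc_of_le h] at ht; linarith [ht.1]
      · rw [Set.uIcc_of_ge h] at ht; linarith [ht.1]
    have hl : 0 < Real.log t := Real.log_pos (by linarith)
    apply ContinuousAt.continuousWithinAt
    exact continuousAt_const.div (Real.continuousAt_log (by linarith)) hl.ne'
  rw [← mul_sub, intervalIntegral.integral_interval_sub_left (hint _ _ le_rfl (by push_cast; linarith))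
    (hint _ _ le_rfl hn'), div_eq_mul_one_div]
  apply mul_le_mul_of_nonneg_left _ hC
  have h1 : 1 / Real.log ((n : ℝ) + 1) = ∫ _t in (n : ℝ)..((n + 1 : ℕ) : ℝ), 1 / Real.log ((n : ℝ) + 1) := by
    rw [intervalIntegral.integral_const]
    push_cast
    rw [smul_eq_mul]; ring
  rw [h1]
  apply intervalIntegral.integral_mono_on (by push_cast; linarith) (by simp)
    (hint _ _ hn' (by push_cast; linarith))
  intro t ht
  have ht0 : (2 : ℝ) ≤ t := hn'.trans ht.1
  have hl : 0 < Real.log t := Real.log_pos (by linarith)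
  have ht1 : t ≤ (n : ℝ) + 1 := by have := ht.2; push_cast at this; exact this
  exact one_div_le_one_div_of_le hl (Real.log_le_log (by linarith) ht1)

end Pool.Agent.U912.Sq2
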